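import Pool.Agent.helper95.AP.SpecL

set_option autoImplicit false

namespace Pool.Agent.APL

open Finset NumberField Pool.Agent.helper3.FT Pool.Agent.helper47.RA Pool.Agent.T5 Pool.Agent.AP

open Classical in
/-- two moduli -/
lemma LCR_two (A B : ℕ) (P Q : ℕ → Prop) (hA : 1 ≤ A) (hB : 1 ≤ B) (hc : Nat.Coprime A B)
    (hP : ∀ x, P x ↔ P (x % A)) (hQ : ∀ x, Q x ↔ Q (x % B)) :
    ((range (A * B)).filter (fun x => P x ∧ Q x)).card = ((range A).filter P).card * ((range B).filter Q).card := by
  rw [← card_product]
  apply card_bij (fun x _ => (x % A, x % B))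
  · intro x hx
    obtain ⟨h1, h2, h3⟩ := mem_filter.mp hx
    rw [mem_product, mem_filter, mem_filter, mem_range, mem_range]
    exact ⟨⟨Nat.mod_lt _ hA, (hP x).mp h2⟩, ⟨Nat.mod_lt _ hB, (hQ x).mp h3⟩⟩
  · intro x hx y hy hxy
    have h1 : x % A = y % A := congrArg Prod.fst hxy
    have h2 : x % B = y % B := congrArg Prod.snd hxy
    have h3 : x ≡ y [MOD A * B] := (Nat.modEq_and_modEq_iff_modEq_mul hc).mp ⟨h1, h2⟩
    have hx1 := mem_range.mp (mem_filter.mp hx).1
    have hy1 := mem_range.mp (mem_filter.mp hy).1
    unfold Nat.ModEq at h3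
    rwa [Nat.mod_eq_of_lt hx1, Nat.mod_eq_of_lt hy1] at h3
  · rintro ⟨a, b⟩ hab
    rw [mem_product, mem_filter, mem_filter, mem_range, mem_range] at hab
    obtain ⟨⟨ha1, ha2⟩, ⟨hb1, hb2⟩⟩ := hab
    have h1 := (Nat.chineseRemainder hc a b).2
    have h2 : ((Nat.chineseRemainder hc a b : ℕ)) % A = a := by
      have h3 : ((Nat.chineseRemainder hc a b : ℕ)) % A = a % A := h1.1
      rw [h3]
      exact Nat.mod_eq_of_lt ha1
    have h4 : ((Nat.chineseRemainder hc a b : ℕ)) % B = b := by
      have h3 : ((Nat.chineseRemainder hc a b : ℕ)) % B = b % B := h1.2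
      rw [h3]
      exact Nat.mod_eq_of_lt hb1
    refine ⟨(Nat.chineseRemainder hc a b : ℕ), ?_, ?_⟩
    · rw [mem_filter, mem_range]
      refine ⟨Nat.chineseRemainder_lt_mul hc a b (by omega) (by omega), ?_, ?_⟩
      · rw [hP, h2]
        exact ha2
      · rw [hQ, h4]
        exact hb2
    · rw [h2, h4]

theorem LCR : LCR_stmt := by
  classical
  intro S m C
  induction S using Finset.induction_on with
  | empty =>
    intro _ _ _
    rw [prod_empty, prod_empty]
    have e : (range 1).filter (fun x => ∀ q ∈ (∅ : Finset ℕ), C q x) = {0} := by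
      ext x
      simp only [mem_filter, mem_range, mem_singleton]
      constructor
      · rintro ⟨h, -⟩
        omega
      · rintro rfl
        exact ⟨one_pos, fun q hq => absurd hq (notMem_empty q)⟩
    have e2 := congrArg card e
    rw [card_singleton] at e2
    rw [← e2]
    congr 1
  | insert a S ha ih =>
    intro h1 h2 h3
    have ih' := ih (fun q hq => h1 q (mem_insert_of_mem hq))
      (fun q hq q' hq' => h2 q (mem_insert_of_mem hq) q' (mem_insert_of_mem hq'))
      (fun q hq => h3 q (mem_insert_of_mem hq))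
    rw [prod_insert ha, prod_insert ha, ← ih']
    have hcop : Nat.Coprime (m a) (∏ q ∈ S, m q) := by
      apply Nat.Coprime.prod_right
      intro q hq
      exact h2 a (mem_insert_self a S) q (mem_insert_of_mem hq) (fun h => ha (h ▸ hq))
    have hpos : 1 ≤ ∏ q ∈ S, m q := by
      apply Nat.one_le_iff_ne_zero.mpr
      rw [prod_ne_zero_iff]
      intro q hq
      exact Nat.one_le_iff_ne_zero.mp (h1 q (mem_insert_of_mem hq))
    have h4 := LCR_two (m a) (∏ q ∈ S, m q) (C a) (fun x => ∀ q ∈ S, C q x) (h1 a (mem_insert_self a S)) hpos hcop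
      (h3 a (mem_insert_self a S)) (by
        intro x
        apply forall_congr'
        intro q
        apply imp_congr_right
        intro hq
        have h5 := h3 q (mem_insert_of_mem hq)
        rw [h5 x, h5 (x % ∏ q ∈ S, m q), Nat.mod_mod_of_dvd _ (dvd_prod_of_mem m hq)])
    refine Eq.trans ?_ (Eq.trans h4 ?_)
    · apply congrArg card
      ext x
      simp only [mem_filter, forall_mem_insert]
    · have e1 : ((range (m a)).filter (C a)).card = ((range (m a)).filter (C a)).card := rfl
      apply congrArg₂ (fun s t : ℕ => s * t)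
      · apply congrArg card
        ext x
        simp only [mem_filter]
      · apply congrArg card
        ext x
        simp only [mem_filter]

end Pool.Agent.APL
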