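import Pool.Agent.helper95.AP.SpecL

set_option autoImplicit false

namespace Pool.Agent.APL

open Finset NumberField Pool.Agent.helper3.FT Pool.Agent.helper47.RA Pool.Agent.T5 Pool.Agent.AP

/-- one variable -/
lemma LCS_one (A B : ℕ) (h : ℕ → ℕ → ℝ) (hA : 1 ≤ A) (hB : 1 ≤ B) (hc : Nat.Coprime A B) :
    ∑ x ∈ range (A * B), h (x % A) (x % B) = ∑ u ∈ range A, ∑ v ∈ range B, h u v := by
  rw [← sum_product']
  apply sum_bij (fun x _ => (x % A, x % B))
  · intro x _
    rw [mem_product, mem_range, mem_range]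
    exact ⟨Nat.mod_lt _ hA, Nat.mod_lt _ hB⟩
  · intro x hx y hy hxy
    have h1 : x % A = y % A := congrArg Prod.fst hxy
    have h2 : x % B = y % B := congrArg Prod.snd hxy
    have h3 : x ≡ y [MOD A * B] := (Nat.modEq_and_modEq_iff_modEq_mul hc).mp ⟨h1, h2⟩
    have hx1 := mem_range.mp hx
    have hy1 := mem_range.mp hy
    unfold Nat.ModEq at h3
    rwa [Nat.mod_eq_of_lt hx1, Nat.mod_eq_of_lt hy1] at h3
  · rintro ⟨a, b⟩ hab
    rw [mem_product, mem_range, mem_range] at hab
    obtain ⟨ha1, hb1⟩ := hab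
    have h1 := (Nat.chineseRemainder hc a b).2
    have h2 : ((Nat.chineseRemainder hc a b : ℕ)) % A = a := by
      have h3 : ((Nat.chineseRemainder hc a b : ℕ)) % A = a % A := h1.1
      rw [h3]
      exact Nat.mod_eq_of_lt ha1
    have h4 : ((Nat.chineseRemainder hc a b : ℕ)) % B = b := by
      have h3 : ((Nat.chineseRemainder hc a b : ℕ)) % B = b % B := h1.2
      rw [h3]
      exact Nat.mod_eq_of_lt hb1
    refine ⟨(Nat.chineseRemainder hc a b : ℕ), ?_, ?_⟩
    · rw [mem_range]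
      exact Nat.chineseRemainder_lt_mul hc a b (by omega) (by omega)
    · rw [h2, h4]
  · intro x _
    rfl

/-- two variables -/
lemma LCS_two (A B : ℕ) (F G : ℕ → ℕ → ℝ) (hA : 1 ≤ A) (hB : 1 ≤ B) (hc : Nat.Coprime A B)
    (hF : ∀ a b, F a b = F (a % A) (b % A)) (hG : ∀ a b, G a b = G (a % B) (b % B)) :
    ∑ a ∈ range (A * B), ∑ b ∈ range (A * B), F a b * G a b =
      (∑ a ∈ range A, ∑ b ∈ range A, F a b) * ∑ a ∈ range B, ∑ b ∈ range B, G a b := by
  have h1 : ∀ a, ∑ b ∈ range (A * B), F a b * G a b =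
      (∑ b ∈ range A, F (a % A) b) * ∑ b ∈ range B, G (a % B) b := by
    intro a
    rw [sum_mul_sum, ← LCS_one A B (fun u v => F (a % A) u * G (a % B) v) hA hB hc]
    apply sum_congr rfl
    intro b _
    rw [hF a b, hG a b]
  rw [sum_mul_sum, ← LCS_one A B (fun u v => (∑ b ∈ range A, F u b) * ∑ b ∈ range B, G v b) hA hB hc]
  apply sum_congr rfl
  intro a _
  exact h1 a

theorem LCS : LCS_stmt := by
  intro S m f
  induction S using Finset.induction_on with
  | empty =>
    intro _ _ _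
    simp
  | insert a₀ S ha ih =>
    intro h1 h2 h3
    have ih' := ih (fun q hq => h1 q (mem_insert_of_mem hq))
      (fun q hq q' hq' => h2 q (mem_insert_of_mem hq) q' (mem_insert_of_mem hq'))
      (fun q hq => h3 q (mem_insert_of_mem hq))
    have hcop : Nat.Coprime (m a₀) (∏ q ∈ S, m q) := by
      apply Nat.Coprime.prod_right
      intro q hq
      exact h2 a₀ (mem_insert_self a₀ S) q (mem_insert_of_mem hq) (fun h => ha (h ▸ hq))
    have hpos : 1 ≤ ∏ q ∈ S, m q := by
      apply Nat.one_le_iff_ne_zero.mpr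
      rw [prod_ne_zero_iff]
      intro q hq
      exact Nat.one_le_iff_ne_zero.mp (h1 q (mem_insert_of_mem hq))
    rw [prod_insert ha, prod_insert ha, ← ih']
    rw [← LCS_two (m a₀) (∏ q ∈ S, m q) (f a₀) (fun a b => ∏ q ∈ S, f q a b) (h1 a₀ (mem_insert_self a₀ S)) hpos hcop
      (h3 a₀ (mem_insert_self a₀ S)) (by
        intro a b
        apply prod_congr rfl
        intro q hq
        have h5 := h3 q (mem_insert_of_mem hq)
        rw [h5 a b, h5 (a % ∏ q ∈ S, m q) (b % ∏ q ∈ S, m q), Nat.mod_mod_of_dvd _ (dvd_prod_of_mem m hq),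
          Nat.mod_mod_of_dvd _ (dvd_prod_of_mem m hq)])]
    apply sum_congr rfl
    intro a _
    apply sum_congr rfl
    intro b _
    rw [prod_insert ha]

end Pool.Agent.APL
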