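import Pool.Agent.helper95.AP.SpecL

set_option autoImplicit false

namespace Pool.Agent.APL

open Finset NumberField Pool.Agent.helper3.FT Pool.Agent.helper47.RA Pool.Agent.T5 Pool.Agent.AP

theorem LFI (hLCR : LCR_stmt) (hLMD : LMD_stmt) (hLCD : LCD_stmt) (hLPE : LPE_stmt) (hLCQ : LCQ_stmt) (hLKB : LKB_stmt)
    (hLNB : LNB_stmt) : LFI_stmt := by
  classical
  intro w p r z y hw hpo hp hr hz hy hco
  obtain ⟨hL1, hL2, hL3⟩ := hLMD.1 w y hw hy
  have hNC : NC w p r z y = ∏ q ∈ SS w y, ((range (q ^ ex w y q)).filter (Cq w r (r * z ^ p) (y.factorization q) q)).card := by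
    have h1 := hLCR (SS w y) (fun q => q ^ ex w y q) (fun q x => Cq w r (r * z ^ p) (y.factorization q) q x)
      (fun q hq => Nat.one_le_iff_ne_zero.mpr (pow_ne_zero _ (hL3 q hq).ne_zero))
      (fun q hq q' hq' hne => Nat.Coprime.pow _ _ ((Nat.coprime_primes (hL3 q hq) (hL3 q' hq')).mpr hne))
      (fun q hq x => hLPE w r (r * z ^ p) y q x (hL3 q hq))
    rw [← hL2] at h1
    unfold NC
    refine Eq.trans ?_ (Eq.trans h1 ?_)
    · symm
      apply card_bij (fun (x : ℕ) _ => (x : ℤ))
      · intro x hx
        obtain ⟨h2, h3⟩ := mem_filter.mp hx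
        rw [mem_filter]
        exact ⟨(@Finset.mem_sup ℤ ℕ (fun a b => Classical.propDecidable (a = b)) _ _ _).mpr ⟨x, h2, mem_singleton.mpr rfl⟩,
          (hLCD w p r z y x hw hr hy).mpr h3⟩
      · intro x _ x' _ h
        exact_mod_cast h
      · intro b hb
        rw [mem_filter] at hb
        obtain ⟨hb1, h4⟩ := hb
        obtain ⟨x, h2, h3⟩ := (@Finset.mem_sup ℤ ℕ (fun a b => Classical.propDecidable (a = b)) _ _ _).mp hb1
        have h3 := mem_singleton.mp h3
        subst h3
        exact ⟨x, mem_filter.mpr ⟨h2, (hLCD w p r z y x hw hr hy).mp h4⟩, rfl⟩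
    · apply prod_congr rfl
      intro q _
      apply congrArg card
      ext x
      simp only [mem_filter]
  have hun : SS w y = pr w ∪ y.primeFactors.filter (fun q => w < q) := by
    unfold SS
    ext q
    rw [mem_union, mem_union, mem_filter]
    constructor
    · rintro (h | h)
      · exact Or.inl h
      · by_cases h1 : w < q
        · exact Or.inr ⟨h, h1⟩
        · left
          unfold pr
          rw [mem_filter, mem_range]
          exact ⟨by omega, Nat.prime_of_mem_primeFactors h⟩
    · rintro (h | h)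
      · exact Or.inl h
      · exact Or.inr h.1
  have hdis : Disjoint (pr w) (y.primeFactors.filter (fun q => w < q)) := by
    rw [disjoint_left]
    intro q hq hq'
    have h1 := (mem_filter.mp hq').2
    unfold pr at hq
    have h2 := mem_range.mp (mem_filter.mp hq).1
    omega
  rw [hNC, hun, prod_union hdis, Nat.cast_mul, Nat.cast_prod, Nat.cast_prod]
  have hA : ∏ q ∈ pr w, (((range (q ^ ex w y q)).filter (Cq w r (r * z ^ p) (y.factorization q) q)).card : ℝ) =
      LL w * ∏ q ∈ pr w, gq q r z y := by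
    rw [hL1]
    push_cast
    rw [← prod_mul_distrib]
    apply prod_congr rfl
    intro q hq
    exact_mod_cast hLCQ w p r z y q hw hpo hp hr hz hy hco hq
  have hB : ∏ q ∈ y.primeFactors.filter (fun q => w < q),
      (((range (q ^ ex w y q)).filter (Cq w r (r * z ^ p) (y.factorization q) q)).card : ℝ) =
      (kap w y ((r * z : ℕ) : ℤ) : ℝ) := by
    unfold kap
    push_cast
    apply prod_congr rfl
    intro q hq
    obtain ⟨h1, h2⟩ := mem_filter.mp hq
    have hqp : q.Prime := Nat.prime_of_mem_primeFactors h1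
    have hqy : q ∣ y := Nat.dvd_of_mem_primeFactors h1
    have hqrz : ¬ q ∣ r * z := by
      intro h3
      have h4 := Nat.dvd_gcd hqy h3
      rw [hco] at h4
      exact hqp.one_lt.ne' (Nat.dvd_one.mp h4)
    have hqr : ¬ q ∣ r := fun h => hqrz (h.mul_right z)
    have hqz : ¬ q ∣ z := fun h => hqrz (h.mul_left r)
    have hqn : ¬ q ∣ r * z ^ p := by
      intro h3
      rcases (Nat.Prime.dvd_mul hqp).mp h3 with h4 | h4
      · exact hqr h4
      · exact hqz (hqp.dvd_of_dvd_pow h4)
    have hv : 1 ≤ y.factorization q := (Nat.Prime.dvd_iff_one_le_factorization hqp (by omega)).mp hqy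
    have hex : ex w y q = 2 * y.factorization q := by
      unfold ex
      rw [if_neg (by omega), add_zero]
    have h5 := hLKB w r (r * z ^ p) (y.factorization q) q hqp hw h2 hv hqn
    rw [(hLNB r z p hpo).1 q hqp hqz] at h5
    rw [hex]
    have h6 : (((range (q ^ (2 * y.factorization q))).filter (Cq w r (r * z ^ p) (y.factorization q) q)).card : ℝ) =
        1 + (jacobiSym ((r * z : ℕ) : ℤ) q : ℝ) := by
      exact_mod_cast h5
    rw [h6]
    push_cast
    rfl
  rw [hA, hB]

end Pool.Agent.APL
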