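import Pool.Agent.helper95.AP.SpecL

set_option autoImplicit false

namespace Pool.Agent.APL

open Finset NumberField Pool.Agent.helper3.FT Pool.Agent.helper47.RA Pool.Agent.T5 Pool.Agent.AP

lemma LHN_one (q : ℕ) (c : ℤ) (hq : q.Prime) (hq2 : q ≠ 2) :
    (((range q).filter (fun x : ℕ => (q : ℤ) ∣ (x : ℤ) ^ 2 - c)).card : ℤ) = 1 + jacobiSym c q := by
  have : Fact q.Prime := ⟨hq⟩
  have h1 := legendreSym.card_sqrts q hq2 c
  rw [← jacobiSym.legendreSym.to_jacobiSym, add_comm, ← h1]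
  have h2 : ((range q).filter (fun x : ℕ => (q : ℤ) ∣ (x : ℤ) ^ 2 - c)).card = {x : ZMod q | x ^ 2 = (c : ZMod q)}.toFinset.card := by
    apply card_bij (fun (x : ℕ) _ => ((x : ℕ) : ZMod q))
    · intro x hx
      rw [Set.mem_toFinset, Set.mem_setOf_eq]
      have h3 := (mem_filter.mp hx).2
      have h4 := (ZMod.intCast_zmod_eq_zero_iff_dvd _ q).mpr h3
      push_cast at h4
      linear_combination h4
    · intro x hx y hy hxy
      have hx1 := mem_range.mp (mem_filter.mp hx).1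
      have hy1 := mem_range.mp (mem_filter.mp hy).1
      have h3 := (ZMod.natCast_eq_natCast_iff x y q).mp hxy
      unfold Nat.ModEq at h3
      rwa [Nat.mod_eq_of_lt hx1, Nat.mod_eq_of_lt hy1] at h3
    · intro y hy
      rw [Set.mem_toFinset, Set.mem_setOf_eq] at hy
      refine ⟨y.val, ?_, ZMod.natCast_zmod_val y⟩
      rw [mem_filter, mem_range]
      refine ⟨ZMod.val_lt y, ?_⟩
      rw [← ZMod.intCast_zmod_eq_zero_iff_dvd]
      push_cast
      rw [ZMod.natCast_zmod_val, hy, sub_self]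
  rw [h2]

lemma LHN_step (q k : ℕ) (c : ℤ) (hq : q.Prime) (hq2 : q ≠ 2) (hk : 1 ≤ k) (hc : ¬ (q : ℤ) ∣ c) :
    ((range (q ^ (k + 1))).filter (fun x : ℕ => (q : ℤ) ^ (k + 1) ∣ (x : ℤ) ^ 2 - c)).card =
    ((range (q ^ k)).filter (fun x : ℕ => (q : ℤ) ^ k ∣ (x : ℤ) ^ 2 - c)).card := by
  have hqz : Prime (q : ℤ) := Nat.prime_iff_prime_int.mp hq
  have hqpos : 0 < q := hq.pos
  have hunit : ∀ x : ℤ, (q : ℤ) ∣ x ^ 2 - c → ¬ (q : ℤ) ∣ 2 * x := by
    intro x hx h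
    rcases hqz.dvd_or_dvd h with h | h
    · have h3 : q ∣ 2 := by exact_mod_cast h
      have h4 := (Nat.prime_dvd_prime_iff_eq hq Nat.prime_two).mp h3
      exact hq2 h4
    · apply hc
      have h3 : (q : ℤ) ∣ x ^ 2 := dvd_pow h two_ne_zero
      have h4 := dvd_sub h3 hx
      have e : x ^ 2 - (x ^ 2 - c) = c := by ring
      rwa [e] at h4
  have hqk : (q : ℤ) ∣ (q : ℤ) ^ k := dvd_pow_self _ (by omega)
  have hqk1 : (q : ℤ) ^ k ∣ (q : ℤ) ^ (k + 1) := pow_dvd_pow _ (by omega)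
  apply card_bij (fun x _ => x % q ^ k)
  · intro x hx
    obtain ⟨h1, h2⟩ := mem_filter.mp hx
    rw [mem_filter, mem_range]
    refine ⟨Nat.mod_lt _ (Nat.pow_pos hqpos), ?_⟩
    have h3 : (q : ℤ) ^ k ∣ (x : ℤ) - ((x % q ^ k : ℕ) : ℤ) := by
      push_cast
      exact Int.dvd_self_sub_emod
    have h4 : (q : ℤ) ^ k ∣ (x : ℤ) ^ 2 - c := hqk1.trans h2
    have h5 := dvd_sub h4 (h3.mul_right ((x : ℤ) + ((x % q ^ k : ℕ) : ℤ)))
    have e : (x : ℤ) ^ 2 - c - ((x : ℤ) - ((x % q ^ k : ℕ) : ℤ)) * ((x : ℤ) + ((x % q ^ k : ℕ) : ℤ)) =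
        ((x % q ^ k : ℕ) : ℤ) ^ 2 - c := by ring
    rwa [e] at h5
  · intro x hx y hy hxy
    obtain ⟨hx1, hx2⟩ := mem_filter.mp hx
    obtain ⟨hy1, hy2⟩ := mem_filter.mp hy
    have hx3 := mem_range.mp hx1
    have hy3 := mem_range.mp hy1
    have h1 : (q : ℤ) ^ (k + 1) ∣ ((x : ℤ) - y) * (x + y) := by
      have h2 := dvd_sub hx2 hy2
      have e : (x : ℤ) ^ 2 - c - ((y : ℤ) ^ 2 - c) = ((x : ℤ) - y) * (x + y) := by ring
      rwa [e] at h2
    have h2 : (q : ℤ) ^ k ∣ (x : ℤ) - y := by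
      have h3 : x ≡ y [MOD q ^ k] := hxy
      have h4 := (Nat.modEq_iff_dvd.mp h3.symm)
      exact_mod_cast h4
    have h3 : ¬ (q : ℤ) ∣ (x : ℤ) + y := by
      intro h4
      have h5 := dvd_add h4 (hqk.trans h2)
      have e : (x : ℤ) + y + (x - y) = 2 * x := by ring
      rw [e] at h5
      exact hunit x ((dvd_pow_self (q : ℤ) (Nat.succ_ne_zero k)).trans hx2) h5
    have h4 : IsCoprime ((q : ℤ) ^ (k + 1)) ((x : ℤ) + y) := by
      apply IsCoprime.pow_left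
      exact (Prime.coprime_iff_not_dvd hqz).mpr h3
    have h5 : (q : ℤ) ^ (k + 1) ∣ (x : ℤ) - y := h4.dvd_of_dvd_mul_right h1
    have h6 : x ≡ y [MOD q ^ (k + 1)] := by
      apply Nat.ModEq.symm
      rw [Nat.modEq_iff_dvd]
      exact_mod_cast h5
    unfold Nat.ModEq at h6
    rwa [Nat.mod_eq_of_lt hx3, Nat.mod_eq_of_lt hy3] at h6
  · intro x₀ hx₀
    obtain ⟨h1, e, he⟩ := mem_filter.mp hx₀
    have h2 := mem_range.mp h1
    have h3 : ¬ (q : ℤ) ∣ 2 * x₀ := hunit x₀ (hqk.trans ⟨e, he⟩)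
    obtain ⟨a, b, hab⟩ := (Prime.coprime_iff_not_dvd hqz).mpr h3
    have hq0 : (0 : ℤ) < q := by exact_mod_cast hqpos
    obtain ⟨t, ht⟩ : ∃ t : ℕ, ((t : ℕ) : ℤ) = (-e * b) % q := by
      obtain ⟨t, ht⟩ := Int.eq_ofNat_of_zero_le (Int.emod_nonneg (-e * b) hq0.ne')
      exact ⟨t, ht.symm⟩
    have htq : t < q := by
      have h4 := Int.emod_lt_of_pos (-e * b) hq0
      rw [← ht] at h4
      exact_mod_cast h4
    have h4 : (q : ℤ) ∣ e + 2 * x₀ * t := by
      rw [ht]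
      have h5 : (q : ℤ) ∣ (-e * b) % q - (-e * b) := by
        have := (Int.dvd_self_sub_emod : (q : ℤ) ∣ (-e * b) - (-e * b) % q)
        have h6 := (dvd_neg.mpr this)
        have e1 : -((-e * b) - (-e * b) % q) = (-e * b) % q - (-e * b) := by ring
        rwa [e1] at h6
      obtain ⟨g, hg⟩ := h5
      refine ⟨2 * x₀ * g + e * a, ?_⟩
      have h6 : (-e * b) % q = -e * b + q * g := by linear_combination hg
      rw [h6]
      linear_combination (-e) * hab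
    refine ⟨x₀ + t * q ^ k, ?_, ?_⟩
    · rw [mem_filter, mem_range]
      constructor
      · have h5 : (t + 1) * q ^ k ≤ q * q ^ k := Nat.mul_le_mul_right _ htq
        have h6 : q ^ (k + 1) = q * q ^ k := by rw [pow_succ, mul_comm]
        have h7 : (t + 1) * q ^ k = t * q ^ k + q ^ k := by ring
        omega
      · obtain ⟨g, hg⟩ := h4
        obtain ⟨j, rfl⟩ : ∃ j, k = j + 1 := ⟨k - 1, by omega⟩
        refine ⟨g + t ^ 2 * q ^ j, ?_⟩
        push_cast
        have e1 : (q : ℤ) ^ (j + 1 + 1) * (g + t ^ 2 * q ^ j) = (q : ℤ) ^ (j + 1) * (q * g) + t ^ 2 * (q ^ (j + 1) * q ^ (j + 1)) := by ring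
        rw [e1, ← hg]
        linear_combination he
    · rw [Nat.add_mul_mod_self_right]
      exact Nat.mod_eq_of_lt h2

theorem LHN : LHN_stmt := by
  intro q k c hq hq2 hk hc
  induction k, hk using Nat.le_induction with
  | base =>
    have h1 := LHN_one q c hq hq2
    simpa only [pow_one] using h1
  | succ k hk ih =>
    rw [LHN_step q k c hq hq2 hk hc]
    exact ih

end Pool.Agent.APL
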