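import Pool.Agent.helper95.AP.SpecL

set_option autoImplicit false

namespace Pool.Agent.APL

open Finset NumberField Pool.Agent.helper3.FT Pool.Agent.helper47.RA Pool.Agent.T5 Pool.Agent.AP

lemma LKB_four (q n : ℕ) (hq : q.Prime) (hq2 : q ≠ 2) (hn : ¬ q ∣ n) :
    ¬ (q : ℤ) ∣ 4 * (n : ℤ) ∧ jacobiSym (4 * (n : ℤ)) q = jacobiSym (n : ℤ) q := by
  have h2 : ¬ q ∣ 2 := fun h => hq2 ((Nat.prime_dvd_prime_iff_eq hq Nat.prime_two).mp h)
  constructor
  · intro h
    have h3 : q ∣ 4 * n := by exact_mod_cast h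
    rcases (Nat.Prime.dvd_mul hq).mp h3 with h4 | h4
    · apply h2
      have e : 4 = 2 ^ 2 := by norm_num
      rw [e] at h4
      exact hq.dvd_of_dvd_pow h4
    · exact hn h4
  · have e : (4 : ℤ) * n = 2 ^ 2 * n := by norm_num
    rw [e, jacobiSym.mul_left]
    have hg : (2 : ℤ).gcd (q : ℤ) = 1 := by
      have h3 : Nat.Coprime 2 q := ((Nat.Prime.coprime_iff_not_dvd hq).mpr h2).symm
      exact h3
    rw [jacobiSym.sq_one' hg, one_mul]

theorem LKB (hLHN : LHN_stmt) : LKB_stmt := by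
  classical
  intro w r n v q hq hw hwq hv hn
  have hq2 : q ≠ 2 := by omega
  obtain ⟨h1, h2⟩ := LKB_four q n hq hq2 hn
  rw [← h2, ← hLHN q (2 * v) (4 * (n : ℤ)) hq hq2 (by omega) h1]
  apply congrArg (fun t : ℕ => (t : ℤ))
  apply congrArg card
  ext x
  simp only [mem_filter]
  apply and_congr_right
  intro _
  constructor
  · intro h
    exact h.1
  · intro h
    exact ⟨h, fun h3 => absurd h3 (by omega)⟩

end Pool.Agent.APL
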