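import Pool.Agent.helper95.AP.SpecL

set_option autoImplicit false

namespace Pool.Agent.APL

open Finset NumberField Pool.Agent.helper3.FT Pool.Agent.helper47.RA Pool.Agent.T5 Pool.Agent.AP

lemma LKO_four (q n : ℕ) (hq : q.Prime) (hq2 : q ≠ 2) (hn : ¬ q ∣ n) :
    ¬ (q : ℤ) ∣ 4 * (n : ℤ) ∧ jacobiSym (4 * (n : ℤ)) q = jacobiSym (n : ℤ) q := by
  have h2 : ¬ q ∣ 2 := fun h => hq2 ((Nat.prime_dvd_prime_iff_eq hq Nat.prime_two).mp h)
  constructor
  · intro h
    have h3 : q ∣ 4 * n := by exact_mod_cast h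
    rcases (Nat.Prime.dvd_mul hq).mp h3 with h4 | h4
    · apply h2
      have e : 4 = 2 ^ 2 := by norm_num
      rw [e] at h4
      exact hq.dvd_of_dvd_pow h4
    · exact hn h4
  · have e : (4 : ℤ) * n = 2 ^ 2 * n := by norm_num
    rw [e, jacobiSym.mul_left]
    have hg : (2 : ℤ).gcd (q : ℤ) = 1 := by
      have h3 : Nat.Coprime 2 q := ((Nat.Prime.coprime_iff_not_dvd hq).mpr h2).symm
      exact h3
    rw [jacobiSym.sq_one' hg, one_mul]

/-- counts of a periodic property -/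
lemma LKO_per (A : ℕ) (P : ℕ → Prop) [DecidablePred P] (hP : ∀ x, P (x + A) ↔ P x) (m : ℕ) :
    ((range (m * A)).filter P).card = m * ((range A).filter P).card := by
  have hper : Function.Periodic P A := fun x => propext (hP x)
  induction m with
  | zero => simp
  | succ m ih =>
    have h1 : range ((m + 1) * A) = range (m * A) ∪ Ico (m * A) (m * A + A) := by
      ext x
      rw [mem_union, mem_range, mem_range, mem_Ico]
      have e : (m + 1) * A = m * A + A := by ring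
      rw [e]
      omega
    have h2 : Disjoint ((range (m * A)).filter P) ((Ico (m * A) (m * A + A)).filter P) := by
      rw [disjoint_left]
      intro x hx hx'
      have h3 := mem_range.mp (mem_filter.mp hx).1
      have h4 := mem_Ico.mp (mem_filter.mp hx').1
      omega
    rw [h1, filter_union, card_union_of_disjoint h2, ih, Nat.filter_Ico_card_eq_of_periodic _ _ _ hper, Nat.count_eq_card_filter_range]
    ring

theorem LKO (hLHN : LHN_stmt) : LKO_stmt := by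
  classical
  intro w r n v q hq hq2 hqw hv hn hr
  obtain ⟨h1, h2⟩ := LKO_four q n hq hq2 hn
  have hA := hLHN q (2 * v) (4 * (n : ℤ)) hq hq2 (by omega) h1
  have hB := hLHN q (2 * v + 2) (4 * (n : ℤ)) hq hq2 (by omega) h1
  rw [h2] at hA hB
  have hq0 : (q : ℤ) ≠ 0 := by exact_mod_cast hq.ne_zero
  have hqv0 : (q : ℤ) ^ (2 * v) ≠ 0 := pow_ne_zero _ hq0
  have hper := LKO_per (q ^ (2 * v)) (fun x : ℕ => (q : ℤ) ^ (2 * v) ∣ (x : ℤ) ^ 2 - 4 * (n : ℤ)) (by
    intro x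
    have e : ((x + q ^ (2 * v) : ℕ) : ℤ) ^ 2 - 4 * (n : ℤ) = ((x : ℤ) ^ 2 - 4 * (n : ℤ)) + (q : ℤ) ^ (2 * v) * (2 * x + q ^ (2 * v)) := by
      push_cast
      ring
    rw [e]
    exact (Int.dvd_add_left (Dvd.intro _ rfl)) ) (q ^ 2)
  have hcard : ((range (q ^ (2 * v + 2))).filter (Cq w r n v q)).card +
      ((range (q ^ (2 * v + 2))).filter (fun x : ℕ => (q : ℤ) ^ (2 * v + 2) ∣ (x : ℤ) ^ 2 - 4 * (n : ℤ))).card =
      ((range (q ^ 2 * q ^ (2 * v))).filter (fun x : ℕ => (q : ℤ) ^ (2 * v) ∣ (x : ℤ) ^ 2 - 4 * (n : ℤ))).card := by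
    have hd : Disjoint ((range (q ^ (2 * v + 2))).filter (Cq w r n v q))
        ((range (q ^ (2 * v + 2))).filter (fun x : ℕ => (q : ℤ) ^ (2 * v + 2) ∣ (x : ℤ) ^ 2 - 4 * (n : ℤ))) := by
      rw [disjoint_left]
      intro x hx hx'
      obtain ⟨h3, h4⟩ := (mem_filter.mp hx).2
      obtain ⟨t, ht⟩ := (mem_filter.mp hx').2
      have h5 := h4 hqw
      unfold Lq at h5
      rw [if_neg hq2] at h5
      apply h5.1
      refine ⟨t, ?_⟩
      rw [ht, pow_add, mul_assoc, Int.mul_ediv_cancel_left _ hqv0]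
    rw [← card_union_of_disjoint hd]
    apply congrArg card
    ext x
    have e : q ^ 2 * q ^ (2 * v) = q ^ (2 * v + 2) := by rw [pow_add, mul_comm]
    rw [e]
    simp only [mem_union, mem_filter]
    constructor
    · rintro (⟨h3, h4⟩ | ⟨h3, h4⟩)
      · exact ⟨h3, h4.1⟩
      · exact ⟨h3, (pow_dvd_pow (q : ℤ) (by omega)).trans h4⟩
    · rintro ⟨h3, h4⟩
      by_cases h5 : (q : ℤ) ^ (2 * v + 2) ∣ (x : ℤ) ^ 2 - 4 * (n : ℤ)
      · exact Or.inr ⟨h3, h5⟩
      · refine Or.inl ⟨h3, h4, fun _ => ?_⟩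
        unfold Lq
        rw [if_neg hq2]
        refine ⟨?_, fun h6 => absurd h6 hr⟩
        intro h6
        apply h5
        obtain ⟨t, ht⟩ := h4
        rw [ht, Int.mul_ediv_cancel_left _ hqv0] at h6
        obtain ⟨s, hs⟩ := h6
        refine ⟨s, ?_⟩
        rw [ht, hs]
        ring
  rw [hper] at hcard
  have hcard' : (((range (q ^ (2 * v + 2))).filter (Cq w r n v q)).card : ℤ) +
      ((range (q ^ (2 * v + 2))).filter (fun x : ℕ => (q : ℤ) ^ (2 * v + 2) ∣ (x : ℤ) ^ 2 - 4 * (n : ℤ))).card =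
      (q : ℤ) ^ 2 * ((range (q ^ (2 * v))).filter (fun x : ℕ => (q : ℤ) ^ (2 * v) ∣ (x : ℤ) ^ 2 - 4 * (n : ℤ))).card := by
    exact_mod_cast hcard
  have hA' : (((range (q ^ (2 * v))).filter (fun x : ℕ => (q : ℤ) ^ (2 * v) ∣ (x : ℤ) ^ 2 - 4 * (n : ℤ))).card : ℤ) = 1 + jacobiSym (n : ℤ) q := by
    rw [← hA]
  have hB' : (((range (q ^ (2 * v + 2))).filter (fun x : ℕ => (q : ℤ) ^ (2 * v + 2) ∣ (x : ℤ) ^ 2 - 4 * (n : ℤ))).card : ℤ) = 1 + jacobiSym (n : ℤ) q := by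
    rw [← hB]
  rw [hA', hB'] at hcard'
  linear_combination hcard'

end Pool.Agent.APL
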