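import Pool.Agent.helper95.AP.SpecL

set_option autoImplicit false

namespace Pool.Agent.APL

open Finset NumberField Pool.Agent.helper3.FT Pool.Agent.helper47.RA Pool.Agent.T5 Pool.Agent.AP

lemma LKP_four (q n : ℕ) (hq : q.Prime) (hq2 : q ≠ 2) (hn : ¬ q ∣ n) :
    ¬ (q : ℤ) ∣ 4 * (n : ℤ) ∧ jacobiSym (4 * (n : ℤ)) q = jacobiSym (n : ℤ) q := by
  have h2 : ¬ q ∣ 2 := fun h => hq2 ((Nat.prime_dvd_prime_iff_eq hq Nat.prime_two).mp h)
  constructor
  · intro h
    have h3 : q ∣ 4 * n := by exact_mod_cast h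
    rcases (Nat.Prime.dvd_mul hq).mp h3 with h4 | h4
    · apply h2
      have e : 4 = 2 ^ 2 := by norm_num
      rw [e] at h4
      exact hq.dvd_of_dvd_pow h4
    · exact hn h4
  · have e : (4 : ℤ) * n = 2 ^ 2 * n := by norm_num
    rw [e, jacobiSym.mul_left]
    have hg : (2 : ℤ).gcd (q : ℤ) = 1 := by
      have h3 : Nat.Coprime 2 q := ((Nat.Prime.coprime_iff_not_dvd hq).mpr h2).symm
      exact h3
    rw [jacobiSym.sq_one' hg, one_mul]

/-- the multiples of `q` below `q²` -/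
lemma LKP_mul (q : ℕ) (hq : 0 < q) : ((range (q ^ 2)).filter (fun x : ℕ => q ∣ x)).card = q := by
  have h1 : (range (q ^ 2)).filter (fun x : ℕ => q ∣ x) = (range q).image (fun t => q * t) := by
    ext x
    rw [mem_filter, mem_range, mem_image]
    constructor
    · rintro ⟨h2, t, rfl⟩
      refine ⟨t, ?_, rfl⟩
      rw [mem_range]
      rw [pow_two] at h2
      exact lt_of_mul_lt_mul_left h2 (Nat.zero_le q)
    · rintro ⟨t, ht, rfl⟩
      rw [mem_range] at ht
      refine ⟨?_, Dvd.intro _ rfl⟩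
      rw [pow_two]
      exact Nat.mul_lt_mul_of_pos_left ht hq
  rw [h1, card_image_of_injective _ (fun a b hab => Nat.eq_of_mul_eq_mul_left hq hab), card_range]

theorem LKP (hLHN : LHN_stmt) : LKP_stmt := by
  classical
  intro w r z p q hq hq2 hqw hp hr2
  have hqz : Prime (q : ℤ) := Nat.prime_iff_prime_int.mp hq
  have h4 : ¬ (q : ℤ) ∣ 4 := by
    intro h
    have h3 : q ∣ 4 := by exact_mod_cast h
    have e : 4 = 2 ^ 2 := by norm_num
    rw [e] at h3
    exact hq2 ((Nat.prime_dvd_prime_iff_eq hq Nat.prime_two).mp (hq.dvd_of_dvd_pow h3))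
  have hcop4 : IsCoprime ((q : ℤ) ^ 2) 4 := IsCoprime.pow_left ((Prime.coprime_iff_not_dvd hqz).mpr h4)
  -- the condition
  have hC : ∀ x : ℕ, Cq w r (r * z ^ p) 0 q x ↔ (¬ (q : ℤ) ^ 2 ∣ (x : ℤ) ^ 2 - 4 * ((r * z ^ p : ℕ) : ℤ)) ∧
      (q ∣ r → (q : ℤ) ∣ (x : ℤ) ^ 2 - 4 * ((r * z ^ p : ℕ) : ℤ)) := by
    intro x
    unfold Cq Lq
    rw [if_neg hq2, mul_zero, pow_zero, Int.ediv_one]
    constructor
    · rintro ⟨-, h⟩
      exact h hqw
    · intro h
      exact ⟨one_dvd _, fun _ => h⟩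
  have hfil : (((range (q ^ 2)).filter (Cq w r (r * z ^ p) 0 q)).card) =
      (((range (q ^ 2)).filter (fun x : ℕ => (¬ (q : ℤ) ^ 2 ∣ (x : ℤ) ^ 2 - 4 * ((r * z ^ p : ℕ) : ℤ)) ∧
      (q ∣ r → (q : ℤ) ∣ (x : ℤ) ^ 2 - 4 * ((r * z ^ p : ℕ) : ℤ)))).card) := by
    apply congrArg card
    ext x
    simp only [mem_filter, hC]
  have hgoal : ((((range (q ^ 2)).filter (fun x : ℕ => (¬ (q : ℤ) ^ 2 ∣ (x : ℤ) ^ 2 - 4 * ((r * z ^ p : ℕ) : ℤ)) ∧
      (q ∣ r → (q : ℤ) ∣ (x : ℤ) ^ 2 - 4 * ((r * z ^ p : ℕ) : ℤ)))).card : ℕ) : ℤ) =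
      if q ∣ r then (if q ∣ z then 0 else (q : ℤ)) else if q ∣ z then (q : ℤ) ^ 2 - q
      else (q : ℤ) ^ 2 - 1 - jacobiSym ((r * z ^ p : ℕ) : ℤ) q := by
    by_cases hr : q ∣ r
    · rw [if_pos hr]
      obtain ⟨r', rfl⟩ := hr
      have hr' : ¬ q ∣ r' := by
        rintro ⟨s, rfl⟩
        apply hr2
        exact ⟨s, by ring⟩
      -- x is divisible by q
      have h5 : ∀ x : ℕ, (q : ℤ) ∣ (x : ℤ) ^ 2 - 4 * ((q * r' * z ^ p : ℕ) : ℤ) ↔ q ∣ x := by
        intro x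
        have h6 : (q : ℤ) ∣ 4 * ((q * r' * z ^ p : ℕ) : ℤ) := ⟨4 * (r' * z ^ p), by push_cast; ring⟩
        rw [dvd_sub_left h6]
        constructor
        · intro h7
          have h8 : (q : ℤ) ∣ (x : ℤ) := hqz.dvd_of_dvd_pow h7
          exact_mod_cast h8
        · intro h7
          have h8 : (q : ℤ) ∣ (x : ℤ) := by exact_mod_cast h7
          exact dvd_pow h8 two_ne_zero
      by_cases hz : q ∣ z
      · rw [if_pos hz]
        have h6 : (range (q ^ 2)).filter (fun x : ℕ => (¬ (q : ℤ) ^ 2 ∣ (x : ℤ) ^ 2 - 4 * ((q * r' * z ^ p : ℕ) : ℤ)) ∧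
            (q ∣ q * r' → (q : ℤ) ∣ (x : ℤ) ^ 2 - 4 * ((q * r' * z ^ p : ℕ) : ℤ))) = ∅ := by
          rw [filter_eq_empty_iff]
          rintro x - ⟨h7, h8⟩
          apply h7
          have h9 : q ∣ x := (h5 x).mp (h8 (Dvd.intro _ rfl))
          obtain ⟨s, rfl⟩ := h9
          obtain ⟨y, rfl⟩ := hz
          obtain ⟨p', rfl⟩ : ∃ p', p = p' + 1 := ⟨p - 1, by omega⟩
          refine ⟨s ^ 2 - 4 * (r' * ((q * y) ^ p' * y)), ?_⟩
          push_cast
          ring
        rw [h6]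
        simp
      · rw [if_neg hz]
        have h6 : (range (q ^ 2)).filter (fun x : ℕ => (¬ (q : ℤ) ^ 2 ∣ (x : ℤ) ^ 2 - 4 * ((q * r' * z ^ p : ℕ) : ℤ)) ∧
            (q ∣ q * r' → (q : ℤ) ∣ (x : ℤ) ^ 2 - 4 * ((q * r' * z ^ p : ℕ) : ℤ))) = (range (q ^ 2)).filter (fun x : ℕ => q ∣ x) := by
          apply filter_congr
          intro x _
          constructor
          · rintro ⟨-, h8⟩
            exact (h5 x).mp (h8 (Dvd.intro _ rfl))
          · intro h7
            refine ⟨?_, fun _ => (h5 x).mpr h7⟩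
            intro h8
            have h9 : (q : ℤ) ^ 2 ∣ (x : ℤ) ^ 2 := by
              have : (q : ℤ) ∣ (x : ℤ) := by exact_mod_cast h7
              exact pow_dvd_pow_of_dvd this 2
            have h10 : (q : ℤ) ^ 2 ∣ 4 * ((q * r' * z ^ p : ℕ) : ℤ) := (dvd_sub_right h9).mp h8
            have h11 : (q : ℤ) ^ 2 ∣ ((q * r' * z ^ p : ℕ) : ℤ) := hcop4.dvd_of_dvd_mul_left h10
            have h12 : q ^ 2 ∣ q * r' * z ^ p := by exact_mod_cast h11
            have h13 : q * q ∣ q * (r' * z ^ p) := by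
              have e : q * (r' * z ^ p) = q * r' * z ^ p := by ring
              rw [e, ← pow_two]
              exact h12
            have h14 : q ∣ r' * z ^ p := Nat.dvd_of_mul_dvd_mul_left hq.pos h13
            rcases (Nat.Prime.dvd_mul hq).mp h14 with h15 | h15
            · exact hr' h15
            · exact hz (hq.dvd_of_dvd_pow h15)
        rw [h6, LKP_mul q hq.pos]
    · rw [if_neg hr]
      have hsub : ∀ (P : ℕ → Prop) [DecidablePred P], (∀ x : ℕ, (((¬ (q : ℤ) ^ 2 ∣ (x : ℤ) ^ 2 - 4 * ((r * z ^ p : ℕ) : ℤ)) ∧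
          (q ∣ r → (q : ℤ) ∣ (x : ℤ) ^ 2 - 4 * ((r * z ^ p : ℕ) : ℤ))) ↔ ¬ P x)) →
          (((range (q ^ 2)).filter (fun x : ℕ => (¬ (q : ℤ) ^ 2 ∣ (x : ℤ) ^ 2 - 4 * ((r * z ^ p : ℕ) : ℤ)) ∧
          (q ∣ r → (q : ℤ) ∣ (x : ℤ) ^ 2 - 4 * ((r * z ^ p : ℕ) : ℤ)))).card : ℤ) = (q : ℤ) ^ 2 - ((range (q ^ 2)).filter P).card := by
        intro P _ hP
        have h5 : (range (q ^ 2)).filter (fun x : ℕ => (¬ (q : ℤ) ^ 2 ∣ (x : ℤ) ^ 2 - 4 * ((r * z ^ p : ℕ) : ℤ)) ∧
          (q ∣ r → (q : ℤ) ∣ (x : ℤ) ^ 2 - 4 * ((r * z ^ p : ℕ) : ℤ))) = (range (q ^ 2)).filter (fun x => ¬ P x) :=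
          filter_congr (fun x _ => hP x)
        rw [h5]
        have h6 := card_filter_add_card_filter_not (s := range (q ^ 2)) P
        rw [card_range] at h6
        have h7 : (((range (q ^ 2)).filter P).card : ℤ) + ((range (q ^ 2)).filter (fun x => ¬ P x)).card = (q : ℤ) ^ 2 := by
          exact_mod_cast h6
        linear_combination h7
      by_cases hz : q ∣ z
      · rw [if_pos hz, hsub (fun x => q ∣ x), LKP_mul q hq.pos]
        intro x
        have h5 : (q : ℤ) ^ 2 ∣ 4 * ((r * z ^ p : ℕ) : ℤ) := by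
          have h6 : (q : ℤ) ∣ z := by exact_mod_cast hz
          have h7 : (q : ℤ) ^ 2 ∣ (z : ℤ) ^ p := (pow_dvd_pow_of_dvd h6 2).trans (pow_dvd_pow _ (by omega))
          push_cast
          exact (h7.mul_left _).mul_left _
        rw [dvd_sub_left h5]
        constructor
        · rintro ⟨h6, -⟩ h7
          apply h6
          have h8 : (q : ℤ) ∣ (x : ℤ) := by exact_mod_cast h7
          exact pow_dvd_pow_of_dvd h8 2
        · intro h6
          refine ⟨?_, fun h7 => absurd h7 hr⟩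
          intro h7
          apply h6
          have h8 : (q : ℤ) ∣ (x : ℤ) := hqz.dvd_of_dvd_pow ((dvd_pow_self _ two_ne_zero).trans h7)
          exact_mod_cast h8
      · rw [if_neg hz, hsub (fun x => (q : ℤ) ^ 2 ∣ (x : ℤ) ^ 2 - 4 * ((r * z ^ p : ℕ) : ℤ))]
        · have hn : ¬ q ∣ r * z ^ p := by
            intro h5
            rcases (Nat.Prime.dvd_mul hq).mp h5 with h6 | h6
            · exact hr h6
            · exact hz (hq.dvd_of_dvd_pow h6)
          obtain ⟨h5, h6⟩ := LKP_four q (r * z ^ p) hq hq2 hn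
          have h7 := hLHN q 2 (4 * ((r * z ^ p : ℕ) : ℤ)) hq hq2 (by omega) h5
          rw [h6] at h7
          rw [h7]
          ring
        · intro x
          constructor
          · intro h
            exact h.1
          · intro h
            exact ⟨h, fun h7 => absurd h7 hr⟩
  have hfil' := congrArg (fun t : ℕ => (t : ℤ)) hfil
  beta_reduce at hfil'
  refine Eq.trans ?_ hgoal
  refine Eq.trans ?_ (Eq.trans hfil' ?_)
  · apply congrArg (fun t : ℕ => (t : ℤ))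
    apply congrArg card
    ext x
    simp only [mem_filter]
  · apply congrArg (fun t : ℕ => (t : ℤ))
    apply congrArg card
    ext x
    simp only [mem_filter]

end Pool.Agent.APL
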