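import Pool.Agent.helper95.AP.SpecL

set_option autoImplicit false

namespace Pool.Agent.APL

open Finset NumberField Pool.Agent.helper3.FT Pool.Agent.helper47.RA Pool.Agent.T5 Pool.Agent.AP

theorem LMM (hLCS : LCS_stmt) (hLMD : LMD_stmt) (hLRS : LRS_stmt) (hLMO : LMO_stmt) (hLMT : LMT_stmt) (hLDV : LDV_stmt) :
    LMM_stmt := by
  intro w hw
  have hpr : ∀ q ∈ pr w, q.Prime := fun q hq => (mem_filter.mp hq).2
  have hLL : LL w = ∏ q ∈ pr w, q ^ aq q := (hLMD.1 w 1 hw le_rfl).1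
  have hone : ∀ r : ℕ, (∑ a ∈ range (LL w), ∑ b ∈ range (LL w), ∏ q ∈ pr w, gq q r a b) / (LL w : ℝ) ^ 2 =
      ∏ q ∈ pr w, (if q ∣ r then m1 q else m0 q) := by
    intro r
    have h1 := hLCS (pr w) (fun q => q ^ aq q) (fun q a b => gq q r a b)
      (fun q hq => Nat.one_le_iff_ne_zero.mpr (pow_ne_zero _ (hpr q hq).ne_zero))
      (fun q hq q' hq' hne => Nat.Coprime.pow _ _ ((Nat.coprime_primes (hpr q hq) (hpr q' hq')).mpr hne))
      (fun q hq a b => (hLRS q (hpr q hq)).2.2.1 r a b)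
    have h2 : ∀ q ∈ pr w, ∑ a ∈ range (q ^ aq q), ∑ b ∈ range (q ^ aq q), gq q r a b =
        ((q : ℝ) ^ aq q) ^ 2 * (if q ∣ r then m1 q else m0 q) := by
      intro q hq
      by_cases hq2 : q = 2
      · subst hq2
        have h3 := hLMT.1 r
        have e : aq 2 = 4 := rfl
        rw [e]
        norm_num at h3 ⊢
        exact h3
      · have e : aq q = 2 := by
          unfold aq
          rw [if_neg hq2]
        rw [e, hLMO q r (hpr q hq) hq2]
        ring
    rw [prod_congr rfl h2, prod_mul_distrib, prod_pow] at h1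
    have h3 : (LL w : ℝ) = ∏ q ∈ pr w, (q : ℝ) ^ aq q := by
      rw [hLL]
      push_cast
      rfl
    have h4 : (LL w : ℝ) ≠ 0 := by
      rw [h3, prod_ne_zero_iff]
      intro q hq
      exact pow_ne_zero _ (by exact_mod_cast (hpr q hq).ne_zero)
    rw [← hLL, ← h3] at h1
    rw [h1]
    field_simp
  simp only [hone]
  rw [hLDV w m1 m0]
  apply prod_congr rfl
  intro q hq
  exact hLMT.2 q (hpr q hq)

end Pool.Agent.APL
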