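import Pool.Agent.helper95.AP.SpecL

set_option autoImplicit false

namespace Pool.Agent.APL

open Finset NumberField Pool.Agent.helper3.FT Pool.Agent.helper47.RA Pool.Agent.T5 Pool.Agent.AP

/-- sums of a periodic function -/
lemma LMO_per (A : ℕ) (f : ℕ → ℝ) (hf : ∀ x, f (x + A) = f x) (m : ℕ) :
    ∑ x ∈ range (m * A), f x = m * ∑ x ∈ range A, f x := by
  have h1 : ∀ m x : ℕ, f (m * A + x) = f x := by
    intro m x
    induction m with
    | zero => rw [zero_mul, zero_add]
    | succ m ih =>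
      have e : (m + 1) * A + x = m * A + x + A := by ring
      rw [e, hf, ih]
  induction m with
  | zero => simp
  | succ m ih =>
    have e : (m + 1) * A = m * A + A := by ring
    rw [e, sum_range_add, ih]
    have h2 : ∑ x ∈ range A, f (m * A + x) = ∑ x ∈ range A, f x := sum_congr rfl (fun x _ => h1 m x)
    rw [h2]
    push_cast
    ring

/-- the sum of the symbols -/
lemma LMO_sym (q : ℕ) (hq : q.Prime) (hq2 : q ≠ 2) : ∑ a ∈ range q, (jacobiSym (a : ℤ) q : ℝ) = 0 := by
  have : Fact q.Prime := ⟨hq⟩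
  have h1 : ∑ x : ZMod q, quadraticChar (ZMod q) x = 0 := quadraticChar_sum_zero (by rw [ZMod.ringChar_zmod_n]; exact hq2)
  have h2 : ∑ a ∈ range q, jacobiSym (a : ℤ) q = ∑ x : ZMod q, quadraticChar (ZMod q) x := by
    apply sum_bij (fun (a : ℕ) _ => ((a : ℕ) : ZMod q))
    · intro a _
      exact mem_univ _
    · intro x hx y hy hxy
      have h3 := (ZMod.natCast_eq_natCast_iff x y q).mp hxy
      unfold Nat.ModEq at h3
      rwa [Nat.mod_eq_of_lt (mem_range.mp hx), Nat.mod_eq_of_lt (mem_range.mp hy)] at h3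
    · intro y _
      exact ⟨y.val, mem_range.mpr (ZMod.val_lt y), ZMod.natCast_zmod_val y⟩
    · intro a _
      rw [← jacobiSym.legendreSym.to_jacobiSym]
      unfold legendreSym
      rw [Int.cast_natCast]
  have h3 : ∑ a ∈ range q, jacobiSym (a : ℤ) q = 0 := h2.trans h1
  exact_mod_cast h3

/-- the sum of the symbols modulo `q²` -/
lemma LMO_sym2 (q r : ℕ) (hq : q.Prime) (hq2 : q ≠ 2) : ∑ a ∈ range (q ^ 2), (jacobiSym ((r * a : ℕ) : ℤ) q : ℝ) = 0 := by
  have h1 : ∑ a ∈ range (q * q), (jacobiSym (a : ℤ) q : ℝ) = q * ∑ a ∈ range q, (jacobiSym (a : ℤ) q : ℝ) := by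
    apply LMO_per
    intro x
    have h2 : jacobiSym ((x + q : ℕ) : ℤ) q = jacobiSym (x : ℤ) q := by
      apply jacobiSym.mod_left'
      push_cast
      rw [Int.add_emod_right]
    rw [h2]
  rw [LMO_sym q hq hq2, mul_zero] at h1
  rw [pow_two]
  have h2 : ∀ a : ℕ, (jacobiSym ((r * a : ℕ) : ℤ) q : ℝ) = (jacobiSym (r : ℤ) q : ℝ) * (jacobiSym (a : ℤ) q : ℝ) := by
    intro a
    push_cast
    rw [jacobiSym.mul_left]
    push_cast
    ring
  simp only [h2]
  rw [← mul_sum, h1, mul_zero]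

/-- the multiples of `q` below `q²` -/
lemma LMO_mul (q : ℕ) (hq : 0 < q) : ((range (q ^ 2)).filter (fun x : ℕ => q ∣ x)).card = q := by
  have h1 : (range (q ^ 2)).filter (fun x : ℕ => q ∣ x) = (range q).image (fun t => q * t) := by
    ext x
    rw [mem_filter, mem_range, mem_image]
    constructor
    · rintro ⟨h2, t, rfl⟩
      refine ⟨t, ?_, rfl⟩
      rw [mem_range]
      rw [pow_two] at h2
      exact lt_of_mul_lt_mul_left h2 (Nat.zero_le q)
    · rintro ⟨t, ht, rfl⟩
      rw [mem_range] at ht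
      refine ⟨?_, Dvd.intro _ rfl⟩
      rw [pow_two]
      exact Nat.mul_lt_mul_of_pos_left ht hq
  rw [h1, card_image_of_injective _ (fun a b hab => Nat.eq_of_mul_eq_mul_left hq hab), card_range]

/-- a sum over two cases -/
lemma LMO_two (q : ℕ) (hq : 0 < q) (u v : ℝ) :
    ∑ b ∈ range (q ^ 2), (if q ∣ b then u else v) = q * u + ((q : ℝ) ^ 2 - q) * v := by
  rw [sum_ite, sum_const, sum_const, LMO_mul q hq, nsmul_eq_mul, nsmul_eq_mul]
  have h6 := card_filter_add_card_filter_not (s := range (q ^ 2)) (fun x => q ∣ x)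
  rw [card_range, LMO_mul q hq] at h6
  have h7 : (q : ℝ) + ((range (q ^ 2)).filter (fun x => ¬ q ∣ x)).card = (q : ℝ) ^ 2 := by
    exact_mod_cast h6
  have h8 : (((range (q ^ 2)).filter (fun x => ¬ q ∣ x)).card : ℝ) = (q : ℝ) ^ 2 - q := by linarith
  rw [h8]

theorem LMO : LMO_stmt := by
  intro q r hq hq2
  have hq0 : (q : ℝ) ≠ 0 := by exact_mod_cast hq.ne_zero
  have hgq : ∀ a b, gq q r a b = go q r a b := by
    intro a b
    unfold gq
    rw [if_neg hq2]
  have hdvd : ∀ a : ℕ, ¬ q ∣ r → (q ∣ r * a ↔ q ∣ a) := by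
    intro a hr
    constructor
    · intro h
      rcases (Nat.Prime.dvd_mul hq).mp h with h | h
      · exact absurd h hr
      · exact h
    · intro h
      exact h.mul_left r
  have hJ0 : ∀ a : ℕ, q ∣ a → (jacobiSym ((r * a : ℕ) : ℤ) q : ℝ) = 0 := by
    intro a ha
    have : Fact q.Prime := ⟨hq⟩
    have h1 : jacobiSym ((r * a : ℕ) : ℤ) q = 0 := by
      rw [← jacobiSym.legendreSym.to_jacobiSym, legendreSym.eq_zero_iff, Int.cast_natCast, ZMod.natCast_eq_zero_iff]
      exact ha.mul_left r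
    rw [h1]
    simp
  simp only [hgq]
  by_cases hr : q ∣ r
  · rw [if_pos hr]
    have hgo : ∀ a b, go q r a b = (if q ∣ b then 0 else 1) * (if q ∣ a then 0 else 1 / (q : ℝ)) := by
      intro a b
      unfold go
      by_cases hb : q ∣ b
      · rw [if_pos hb, if_pos hb, if_pos (hr.mul_right a), zero_mul]
      · rw [if_neg hb, if_neg hb, if_pos hr, one_mul]
    simp only [hgo]
    rw [← sum_comm]
    rw [← sum_mul_sum]
    rw [LMO_two q hq.pos, LMO_two q hq.pos]
    unfold m1
    field_simp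
    ring
  · rw [if_neg hr]
    have hb1 : ∀ b, ∑ a ∈ range (q ^ 2), go q r a b =
        if q ∣ b then ((q : ℝ) ^ 2 - q) * (((q : ℝ) ^ 2 - 1) / (q : ℝ) ^ 2) else
          (q * (((q : ℝ) ^ 2 - q) / (q : ℝ) ^ 2) + ((q : ℝ) ^ 2 - q) * (((q : ℝ) ^ 2 - 1) / (q : ℝ) ^ 2)) := by
      intro b
      by_cases hb : q ∣ b
      · rw [if_pos hb]
        have h1 : ∀ a, go q r a b = (if q ∣ a then 0 else ((q : ℝ) ^ 2 - 1) / (q : ℝ) ^ 2) +
            (jacobiSym ((r * a : ℕ) : ℤ) q : ℝ) * (((q : ℝ) ^ 2 - 1) / (q : ℝ) ^ 2) := by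
          intro a
          unfold go
          rw [if_pos hb]
          by_cases ha : q ∣ a
          · rw [if_pos ha, if_pos (ha.mul_left r), hJ0 a ha]
            ring
          · rw [if_neg ha, if_neg (fun h => ha ((hdvd a hr).mp h))]
            ring
        simp only [h1]
        rw [sum_add_distrib, LMO_two q hq.pos, ← sum_mul, LMO_sym2 q r hq hq2]
        ring
      · rw [if_neg hb]
        have h1 : ∀ a, go q r a b = (if q ∣ a then ((q : ℝ) ^ 2 - q) / (q : ℝ) ^ 2 else ((q : ℝ) ^ 2 - 1) / (q : ℝ) ^ 2) -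
            (jacobiSym ((r * a : ℕ) : ℤ) q : ℝ) * (1 / (q : ℝ) ^ 2) := by
          intro a
          unfold go
          rw [if_neg hb, if_neg hr]
          by_cases ha : q ∣ a
          · rw [if_pos ha, if_pos ha, hJ0 a ha]
            ring
          · rw [if_neg ha, if_neg ha]
            ring
        simp only [h1]
        rw [sum_sub_distrib, LMO_two q hq.pos, ← sum_mul, LMO_sym2 q r hq hq2]
        ring
    rw [sum_comm]
    simp only [hb1]
    rw [LMO_two q hq.pos]
    unfold m0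
    field_simp
    ring

end Pool.Agent.APL
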