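import Pool.Agent.helper95.AP.SpecL

set_option autoImplicit false

namespace Pool.Agent.APL

open Finset NumberField Pool.Agent.helper3.FT Pool.Agent.helper47.RA Pool.Agent.T5 Pool.Agent.AP

theorem LNB : LNB_stmt := by
  rintro r z p ⟨m, rfl⟩
  constructor
  · intro q hq hqz
    have e : ((r * z ^ (2 * m + 1) : ℕ) : ℤ) = ((r * z : ℕ) : ℤ) * ((z : ℤ) ^ m) ^ 2 := by
      push_cast
      ring
    rw [e, jacobiSym.mul_left]
    have hg : ((z : ℤ) ^ m).gcd (q : ℤ) = 1 := by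
      have h1 : Nat.Coprime (z ^ m) q := Nat.Coprime.pow_left m ((Nat.Prime.coprime_iff_not_dvd hq).mpr hqz).symm
      have h2 : ((z : ℤ) ^ m).gcd (q : ℤ) = Nat.gcd (z ^ m) q := by
        rw [Int.gcd, Int.natAbs_pow, Int.natAbs_natCast, Int.natAbs_natCast]
      rw [h2]
      exact h1
    rw [jacobiSym.sq_one' hg, mul_one]
  · intro hz
    have h1 : z ^ 2 ≡ 1 [MOD 8] := by
      have h2 : z % 8 = 1 ∨ z % 8 = 3 ∨ z % 8 = 5 ∨ z % 8 = 7 := by omega
      unfold Nat.ModEq
      rw [pow_two, Nat.mul_mod]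
      rcases h2 with h | h | h | h <;> rw [h]
    have h2 := (h1.pow m).mul_left (r * z)
    rw [one_pow, mul_one] at h2
    have e : r * z ^ (2 * m + 1) = r * z * (z ^ 2) ^ m := by ring
    rw [e]
    exact h2

end Pool.Agent.APL
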