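import Pool.Agent.helper95.AP.SpecL

set_option autoImplicit false

namespace Pool.Agent.APL

open Finset NumberField Pool.Agent.helper3.FT Pool.Agent.helper47.RA Pool.Agent.T5 Pool.Agent.AP

theorem LOC (hLFI : LFI_stmt) (hLRS : LRS_stmt) (hLMM : LMM_stmt) : LOC_all := by
  intro p hpo hp w hw
  have hpr : ∀ q ∈ pr w, q.Prime := fun q hq => (mem_filter.mp hq).2
  refine ⟨fun r a b => ∏ q ∈ pr w, gq q r a b, ?_, ?_, ?_, ?_⟩
  · intro r a b
    exact prod_nonneg fun q hq => (hLRS q (hpr q hq)).1 r a b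
  · intro r a b q hq h1 h2
    exact prod_eq_zero hq ((hLRS q (hpr q hq)).2.1 r a b h1 h2)
  · intro r z y hr hz hy hco
    rw [hLFI w p r z y hw hpo hp hr hz hy hco]
    apply congrArg (fun t : ℝ => t * (kap w y ((r * z : ℕ) : ℤ) : ℝ))
    apply congrArg (fun t : ℝ => (LL w : ℝ) * t)
    apply prod_congr rfl
    intro q hq
    exact (hLRS q (hpr q hq)).2.2.2 w r z y hw hq
  · exact hLMM w hw

end Pool.Agent.APL
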