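import Pool.Agent.helper95.AP.SpecL

set_option autoImplicit false

namespace Pool.Agent.APL

open Finset NumberField Pool.Agent.helper3.FT Pool.Agent.helper47.RA Pool.Agent.T5 Pool.Agent.AP

/-- counts of a periodic property -/
lemma LR8_per (A : ℕ) (P : ℕ → Prop) [DecidablePred P] (hP : ∀ x, P (x + A) ↔ P x) (m : ℕ) :
    ((range (m * A)).filter P).card = m * ((range A).filter P).card := by
  have hper : Function.Periodic P A := fun x => propext (hP x)
  induction m with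
  | zero => simp
  | succ m ih =>
    have h1 : range ((m + 1) * A) = range (m * A) ∪ Ico (m * A) (m * A + A) := by
      ext x
      rw [mem_union, mem_range, mem_range, mem_Ico]
      have e : (m + 1) * A = m * A + A := by ring
      rw [e]
      omega
    have h2 : Disjoint ((range (m * A)).filter P) ((Ico (m * A) (m * A + A)).filter P) := by
      rw [disjoint_left]
      intro x hx hx'
      have h3 := mem_range.mp (mem_filter.mp hx).1
      have h4 := mem_Ico.mp (mem_filter.mp hx').1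
      omega
    rw [h1, filter_union, card_union_of_disjoint h2, ih, Nat.filter_Ico_card_eq_of_periodic _ _ _ hper, Nat.count_eq_card_filter_range]
    ring

/-- `x` is even; the halves -/
lemma LR8_half (n j : ℕ) : ((range (2 ^ (j + 2))).filter (fun x : ℕ => (2 : ℤ) ^ (j + 2) ∣ (x : ℤ) ^ 2 - 4 * (n : ℤ))).card ≤
    ((range (2 ^ (j + 1))).filter (fun x : ℕ => (2 : ℤ) ^ j ∣ (x : ℤ) ^ 2 - (n : ℤ))).card := by
  have hev : ∀ x : ℕ, (2 : ℤ) ^ (j + 2) ∣ (x : ℤ) ^ 2 - 4 * (n : ℤ) → ∃ y : ℕ, x = 2 * y ∧ (2 : ℤ) ^ j ∣ (y : ℤ) ^ 2 - (n : ℤ) := by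
    intro x hx
    have h1 : (2 : ℤ) ∣ (x : ℤ) ^ 2 := by
      have h2 : (2 : ℤ) ∣ (x : ℤ) ^ 2 - 4 * (n : ℤ) := (dvd_pow_self 2 (by omega)).trans hx
      have h3 : (2 : ℤ) ∣ 4 * (n : ℤ) := ⟨2 * n, by ring⟩
      exact (dvd_sub_left h3).mp h2
    have h2 : (2 : ℤ) ∣ (x : ℤ) := Int.prime_two.dvd_of_dvd_pow h1
    have h3 : 2 ∣ x := by exact_mod_cast h2
    obtain ⟨y, rfl⟩ := h3
    refine ⟨y, rfl, ?_⟩
    obtain ⟨t, ht⟩ := hx
    refine ⟨t, ?_⟩
    have h4 : (4 : ℤ) * ((y : ℤ) ^ 2 - n) = 4 * (2 ^ j * t) := by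
      push_cast at ht
      rw [pow_add] at ht
      linear_combination ht
    exact mul_left_cancel₀ (by norm_num) h4
  apply card_le_card_of_injOn (fun x => x / 2)
  · intro x hx
    obtain ⟨h1, h2⟩ := mem_filter.mp (mem_coe.mp hx)
    obtain ⟨y, rfl, h3⟩ := hev x h2
    have h4 := mem_range.mp h1
    have h5 : 2 ^ (j + 2) = 2 * 2 ^ (j + 1) := by rw [pow_succ 2 (j + 1)]; ring
    have h6 : 2 * y / 2 = y := by omega
    rw [mem_coe, mem_filter, mem_range]
    beta_reduce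
    rw [h6]
    exact ⟨by omega, h3⟩
  · intro x hx x' hx' h
    obtain ⟨y, rfl, -⟩ := hev x (mem_filter.mp (mem_coe.mp hx)).2
    obtain ⟨y', rfl, -⟩ := hev x' (mem_filter.mp (mem_coe.mp hx')).2
    beta_reduce at h
    omega

theorem LR8 (hLRT : LRT_stmt) : LR8_stmt := by
  intro n v hn hv
  have h1 : ((range (2 ^ (2 * v))).filter (fun x : ℕ => (2 : ℤ) ^ (2 * v) ∣ (x : ℤ) ^ 2 - 4 * (n : ℤ))).card ≤
      ((range (2 ^ (2 * v - 2 + 1))).filter (fun x : ℕ => (2 : ℤ) ^ (2 * v - 2) ∣ (x : ℤ) ^ 2 - (n : ℤ))).card := by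
    have h2 := LR8_half n (2 * v - 2)
    have e : 2 * v - 2 + 2 = 2 * v := by omega
    rw [e] at h2
    exact h2
  refine le_trans h1 ?_
  by_cases hv3 : 3 ≤ v
  · have h3 := LR8_per (2 ^ (2 * v - 2)) (fun x : ℕ => (2 : ℤ) ^ (2 * v - 2) ∣ (x : ℤ) ^ 2 - (n : ℤ)) (by
      intro x
      have e : ((x + 2 ^ (2 * v - 2) : ℕ) : ℤ) ^ 2 - (n : ℤ) = ((x : ℤ) ^ 2 - (n : ℤ)) + (2 : ℤ) ^ (2 * v - 2) * (2 * x + 2 ^ (2 * v - 2)) := by
        push_cast
        ring
      rw [e]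
      exact Int.dvd_add_left (Dvd.intro _ rfl)) 2
    have h4 := hLRT (2 * v - 2) n (by omega) (by omega)
    have e : 2 ^ (2 * v - 2 + 1) = 2 * 2 ^ (2 * v - 2) := by rw [pow_succ]; ring
    rw [e, h3, h4]
    split_ifs <;> norm_num
  · refine le_trans (card_filter_le _ _) ?_
    rw [card_range]
    have h3 : v = 1 ∨ v = 2 := by omega
    rcases h3 with rfl | rfl <;> norm_num

end Pool.Agent.APL
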