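import Pool.Agent.helper95.AP.SpecL

set_option autoImplicit false

namespace Pool.Agent.APL

open Finset NumberField Pool.Agent.helper3.FT Pool.Agent.helper47.RA Pool.Agent.T5 Pool.Agent.AP

/-- counts of a periodic property -/
lemma LTC_per (A : ℕ) (P : ℕ → Prop) [DecidablePred P] (hP : ∀ x, P (x + A) ↔ P x) (m : ℕ) :
    ((range (m * A)).filter P).card = m * ((range A).filter P).card := by
  have hper : Function.Periodic P A := fun x => propext (hP x)
  induction m with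
  | zero => simp
  | succ m ih =>
    have h1 : range ((m + 1) * A) = range (m * A) ∪ Ico (m * A) (m * A + A) := by
      ext x
      rw [mem_union, mem_range, mem_range, mem_Ico]
      have e : (m + 1) * A = m * A + A := by ring
      rw [e]
      omega
    have h2 : Disjoint ((range (m * A)).filter P) ((Ico (m * A) (m * A + A)).filter P) := by
      rw [disjoint_left]
      intro x hx hx'
      have h3 := mem_range.mp (mem_filter.mp hx).1
      have h4 := mem_Ico.mp (mem_filter.mp hx').1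
      omega
    rw [h1, filter_union, card_union_of_disjoint h2, ih, Nat.filter_Ico_card_eq_of_periodic _ _ _ hper, Nat.count_eq_card_filter_range]
    ring

/-- `x` is even; the halves -/
lemma LTC_half (c : ℤ) (j : ℕ) : ((range (2 ^ (j + 2))).filter (fun x : ℕ => (2 : ℤ) ^ (j + 2) ∣ (x : ℤ) ^ 2 - 4 * c)).card =
    ((range (2 ^ (j + 1))).filter (fun x : ℕ => (2 : ℤ) ^ j ∣ (x : ℤ) ^ 2 - c)).card := by
  symm
  apply card_bij (fun x _ => 2 * x)
  · intro x hx
    obtain ⟨h1, t, ht⟩ := mem_filter.mp hx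
    have h2 := mem_range.mp h1
    rw [mem_filter, mem_range]
    have h5 : 2 ^ (j + 2) = 2 * 2 ^ (j + 1) := by rw [pow_succ 2 (j + 1)]; ring
    refine ⟨by omega, t, ?_⟩
    push_cast
    rw [pow_add]
    linear_combination 4 * ht
  · intro x _ x' _ h
    omega
  · intro x hx
    obtain ⟨h1, hx2⟩ := mem_filter.mp hx
    have h2 := mem_range.mp h1
    have h3 : (2 : ℤ) ∣ (x : ℤ) ^ 2 := by
      have h2 : (2 : ℤ) ∣ (x : ℤ) ^ 2 - 4 * c := (dvd_pow_self 2 (by omega)).trans hx2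
      have h3 : (2 : ℤ) ∣ 4 * c := ⟨2 * c, by ring⟩
      exact (dvd_sub_left h3).mp h2
    have h4 : (2 : ℤ) ∣ (x : ℤ) := Int.prime_two.dvd_of_dvd_pow h3
    have h5 : 2 ∣ x := by exact_mod_cast h4
    obtain ⟨y, rfl⟩ := h5
    refine ⟨y, ?_, rfl⟩
    have h5 : 2 ^ (j + 2) = 2 * 2 ^ (j + 1) := by rw [pow_succ 2 (j + 1)]; ring
    rw [mem_filter, mem_range]
    refine ⟨by omega, ?_⟩
    obtain ⟨t, ht⟩ := hx2
    refine ⟨t, ?_⟩
    have h4 : (4 : ℤ) * ((y : ℤ) ^ 2 - c) = 4 * (2 ^ j * t) := by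
      push_cast at ht
      rw [pow_add] at ht
      linear_combination ht
    exact mul_left_cancel₀ (by norm_num) h4

/-- one residue of the quotient -/
lemma LTC_res (hLRT : LRT_stmt) (n v : ℕ) (s : ℤ) (hn : ¬ 2 ∣ n) (hv : 2 ≤ v) (hs : 0 ≤ s) (hs' : s < 16) :
    ((range (2 ^ (2 * v + 4))).filter (fun x : ℕ => (2 : ℤ) ^ (2 * v) ∣ (x : ℤ) ^ 2 - 4 * (n : ℤ) ∧
      (((x : ℤ) ^ 2 - 4 * (n : ℤ)) / (2 : ℤ) ^ (2 * v)) % 16 = s)).card =
    if ((n : ℤ) + 2 ^ (2 * v - 2) * s) % 8 = 1 then 8 else 0 := by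
  obtain ⟨u, rfl⟩ : ∃ u, v = u + 2 := ⟨v - 2, by omega⟩
  have e1 : 2 * (u + 2) - 2 = 2 * u + 2 := by omega
  rw [e1]
  have hcong : (range (2 ^ (2 * (u + 2) + 4))).filter (fun x : ℕ => (2 : ℤ) ^ (2 * (u + 2)) ∣ (x : ℤ) ^ 2 - 4 * (n : ℤ) ∧
      (((x : ℤ) ^ 2 - 4 * (n : ℤ)) / (2 : ℤ) ^ (2 * (u + 2))) % 16 = s) =
      (range (2 ^ (2 * u + 6 + 2))).filter (fun x : ℕ => (2 : ℤ) ^ (2 * u + 6 + 2) ∣ (x : ℤ) ^ 2 - 4 * ((n : ℤ) + 2 ^ (2 * u + 2) * s)) := by
    have e2 : 2 * (u + 2) + 4 = 2 * u + 6 + 2 := by ring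
    rw [e2]
    apply filter_congr
    intro x _
    have hp : (2 : ℤ) ^ (2 * (u + 2)) ≠ 0 := by positivity
    have hpow : (2 : ℤ) ^ (2 * u + 6 + 2) = 2 ^ (2 * (u + 2)) * 16 := by ring
    constructor
    · rintro ⟨⟨d, hd⟩, h2⟩
      rw [hd, Int.mul_ediv_cancel_left _ hp] at h2
      have h3 := Int.mul_ediv_add_emod d 16
      refine ⟨d / 16, ?_⟩
      rw [hpow]
      rw [h2] at h3
      linear_combination hd + (2 : ℤ) ^ (2 * (u + 2)) * (-h3)
    · rintro ⟨t, ht⟩
      rw [hpow] at ht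
      have hd : (x : ℤ) ^ 2 - 4 * (n : ℤ) = 2 ^ (2 * (u + 2)) * (16 * t + s) := by
        linear_combination ht
      refine ⟨⟨_, hd⟩, ?_⟩
      rw [hd, Int.mul_ediv_cancel_left _ hp]
      omega
  rw [hcong, LTC_half]
  have h3 := LTC_per (2 ^ (2 * u + 6)) (fun x : ℕ => (2 : ℤ) ^ (2 * u + 6) ∣ (x : ℤ) ^ 2 - ((n : ℤ) + 2 ^ (2 * u + 2) * s)) (by
    intro x
    have e : ((x + 2 ^ (2 * u + 6) : ℕ) : ℤ) ^ 2 - ((n : ℤ) + 2 ^ (2 * u + 2) * s) =
        ((x : ℤ) ^ 2 - ((n : ℤ) + 2 ^ (2 * u + 2) * s)) + (2 : ℤ) ^ (2 * u + 6) * (2 * x + 2 ^ (2 * u + 6)) := by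
      push_cast
      ring
    rw [e]
    exact Int.dvd_add_left (Dvd.intro _ rfl)) 2
  have e3 : 2 ^ (2 * u + 6 + 1) = 2 * 2 ^ (2 * u + 6) := by rw [pow_succ]; ring
  have hodd : ((n : ℤ) + 2 ^ (2 * u + 2) * s) % 2 = 1 := by
    have e4 : (2 : ℤ) ^ (2 * u + 2) * s = 2 * (2 ^ (2 * u + 1) * s) := by ring
    rw [e4]
    omega
  have h4 := hLRT (2 * u + 6) ((n : ℤ) + 2 ^ (2 * u + 2) * s) (by omega) hodd
  rw [e3, h3, h4]
  split_ifs <;> rfl

theorem LTC (hLRT : LRT_stmt) : LTC_stmt := by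
  classical
  intro w r n v hw hn hr hv
  have hset : (range (2 ^ (2 * v + 4))).filter (Cq w r n v 2) = (range (2 ^ (2 * v + 4))).filter (fun x : ℕ =>
      (2 : ℤ) ^ (2 * v) ∣ (x : ℤ) ^ 2 - 4 * (n : ℤ) ∧
      (((x : ℤ) ^ 2 - 4 * (n : ℤ)) / (2 : ℤ) ^ (2 * v)) % 16 ∈ ({1, 5, 9, 13, 8, 12} : Finset ℤ)) := by
    apply filter_congr
    intro x _
    unfold Cq Lq
    rw [if_pos rfl]
    push_cast
    simp only [mem_insert, mem_singleton]
    constructor
    · rintro ⟨h1, h2⟩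
      refine ⟨h1, ?_⟩
      obtain ⟨h3, h4, h5, -⟩ := h2 hw
      omega
    · rintro ⟨h1, h2⟩
      refine ⟨h1, fun _ => ⟨by omega, by omega, by omega, fun h6 => absurd h6 hr⟩⟩
  have hcard : ((range (2 ^ (2 * v + 4))).filter (Cq w r n v 2)).card =
      ∑ s ∈ ({1, 5, 9, 13, 8, 12} : Finset ℤ), (if ((n : ℤ) + 2 ^ (2 * v - 2) * s) % 8 = 1 then 8 else 0) := by
    rw [hset]
    rw [card_eq_sum_card_fiberwise (f := fun x : ℕ => (((x : ℤ) ^ 2 - 4 * (n : ℤ)) / (2 : ℤ) ^ (2 * v)) % 16)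
      (t := ({1, 5, 9, 13, 8, 12} : Finset ℤ)) (by
        intro x hx
        exact (mem_filter.mp (mem_coe.mp hx)).2.2)]
    apply sum_congr rfl
    intro s hs
    rw [filter_filter]
    have hs2 : 0 ≤ s ∧ s < 16 := by
      simp only [mem_insert, mem_singleton] at hs
      omega
    rw [← LTC_res hLRT n v s hn hv hs2.1 hs2.2]
    apply congrArg card
    apply filter_congr
    intro x _
    constructor
    · rintro ⟨⟨h1, -⟩, h3⟩
      exact ⟨h1, h3⟩
    · rintro ⟨h1, h3⟩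
      refine ⟨⟨h1, ?_⟩, h3⟩
      rw [h3]
      exact hs
  refine Eq.trans ?_ (Eq.trans hcard ?_)
  · apply congrArg card
    ext x
    simp only [mem_filter]
  · rw [sum_insert (by decide), sum_insert (by decide), sum_insert (by decide), sum_insert (by decide), sum_insert (by decide), sum_singleton]
    by_cases hv2 : v = 2
    · rw [if_pos hv2, hv2]
      have e : (2 : ℤ) ^ (2 * 2 - 2) = 4 := by norm_num
      rw [e]
      have h8 : n % 8 = 1 ∨ n % 8 = 3 ∨ n % 8 = 5 ∨ n % 8 = 7 := by omega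
      rcases h8 with h | h | h | h
      · rw [if_pos h, if_neg (by omega), if_neg (by omega), if_neg (by omega), if_neg (by omega), if_pos (by omega), if_pos (by omega)]
        norm_num
      · rw [if_neg (by omega), if_neg (by omega), if_neg (by omega), if_neg (by omega), if_neg (by omega), if_neg (by omega), if_neg (by omega), if_neg (by omega)]
        norm_num
      · rw [if_pos (by omega), if_pos (by omega), if_pos (by omega), if_pos (by omega), if_neg (by omega), if_neg (by omega), if_neg (by omega), if_pos h]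
        norm_num
      · rw [if_neg (by omega), if_neg (by omega), if_neg (by omega), if_neg (by omega), if_neg (by omega), if_neg (by omega), if_neg (by omega), if_neg (by omega)]
        norm_num
    · rw [if_neg hv2]
      obtain ⟨u, rfl⟩ : ∃ u, v = u + 3 := ⟨v - 3, by omega⟩
      have e : (2 : ℤ) ^ (2 * (u + 3) - 2) = 8 * 2 ^ (2 * u + 1) := by
        have e1 : 2 * (u + 3) - 2 = 3 + (2 * u + 1) := by omega
        rw [e1, pow_add]
        norm_num
      rw [e]
      have key : ∀ s : ℤ, (if ((n : ℤ) + 8 * 2 ^ (2 * u + 1) * s) % 8 = 1 then (8 : ℕ) else 0) =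
          (if n % 8 = 1 then 8 else 0) := by
        intro s
        have e2 : (n : ℤ) + 8 * 2 ^ (2 * u + 1) * s = (n : ℤ) + 8 * (2 ^ (2 * u + 1) * s) := by ring
        rw [e2]
        by_cases h : n % 8 = 1
        · rw [if_pos (by omega), if_pos h]
        · rw [if_neg (by omega), if_neg h]
      rw [key, key, key, key, key, key]
      by_cases h : n % 8 = 1
      · simp only [if_pos h]
        norm_num
      · simp only [if_neg h]
        norm_num

end Pool.Agent.APL
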